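import Pool.Agent.P.MP_527a81_lc.Proof

namespace Pool.Agent.Results.MP_527a81_lc.NotReducible

open Pool.Agent.P.MP_527a81_lc

/-- The rainbow Ramsey theorem for pairs and 2-bounded colourings is not Weihrauch reducible to
the thin-set Hindman theorem for sums of exactly two elements. -/
theorem result : ¬ WeihrauchLE RRT22 thinHT2 := not_weihrauchLE

end Pool.Agent.Results.MP_527a81_lc.NotReducible
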